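import Pool.Agent.Helper84.OPC.Stmts

set_option autoImplicit false

/-!
MP_ec87e6_co, module PICT: from drawings to pictures
-/

namespace OPC

theorem pict_wf {n : ℕ} {E : List (ℕ × ℕ)} (h : wfE n E = true) :
    (∀ x ∈ E, x.1 < x.2 ∧ x.2 < n) ∧ E.Nodup := by
  unfold wfE at h
  simp only [Bool.and_eq_true, List.all_eq_true, decide_eq_true_eq] at h
  exact ⟨fun x hx => h.1.1.1 x hx, h.1.1.2⟩

theorem pict_mem {E : List (ℕ × ℕ)} {e : ℕ} (h : e < E.length) : ed E e ∈ E := by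
  unfold ed
  rw [List.getD_eq_getElem E (0, 0) h]
  exact List.getElem_mem h

theorem pict_idx {E : List (ℕ × ℕ)} (hE : E.Nodup) {e f : ℕ} (he : e < E.length)
    (hf : f < E.length) (h : ed E e = ed E f) : e = f := by
  unfold ed at h
  rw [List.getD_eq_getElem E (0, 0) he, List.getD_eq_getElem E (0, 0) hf] at h
  exact (List.Nodup.getElem_inj_iff hE).1 h

theorem pict_sym {V : Type} {n : ℕ} {E : List (ℕ × ℕ)} (h : wfE n E = true) {ψ : ℕ → V}
    (hψ : ∀ i < n, ∀ j < n, ψ i = ψ j → i = j) {e f : ℕ} (he : e < E.length)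
    (hf : f < E.length)
    (hs : s(ψ (ed E e).1, ψ (ed E e).2) = s(ψ (ed E f).1, ψ (ed E f).2)) : e = f := by
  obtain ⟨h1, h2⟩ := pict_wf h
  obtain ⟨a1, a2⟩ := h1 _ (pict_mem he)
  obtain ⟨b1, b2⟩ := h1 _ (pict_mem hf)
  rw [Sym2.eq_iff] at hs
  rcases hs with ⟨c1, c2⟩ | ⟨c1, c2⟩
  · have d1 := hψ _ (a1.trans a2) _ (b1.trans b2) c1
    have d2 := hψ _ a2 _ b2 c2
    exact pict_idx h2 he hf (Prod.ext d1 d2)
  · have d1 := hψ _ (a1.trans a2) _ b2 c1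
    have d2 := hψ _ a2 _ (b1.trans b2) c2
    omega

theorem pict_inc {V : Type} {n : ℕ} {E : List (ℕ × ℕ)} (h : wfE n E = true) {ψ : ℕ → V}
    {e : ℕ} (he : e < E.length) {w : V} (hw : w ∈ s(ψ (ed E e).1, ψ (ed E e).2)) :
    ∃ u < n, w = ψ u ∧ inc E u e = true := by
  obtain ⟨h1, h2⟩ := pict_wf h
  obtain ⟨a1, a2⟩ := h1 _ (pict_mem he)
  rw [Sym2.mem_iff] at hw
  rcases hw with hw | hw
  · exact ⟨(ed E e).1, a1.trans a2, hw, by unfold inc; simp⟩
  · exact ⟨(ed E e).2, a2, hw, by unfold inc; simp⟩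

/-- from drawings to pictures -/
theorem st_PICT : ST_PICT := by
  intro V G ⟨D, hD⟩ n E hE ψ hψ hadj
  have hedge : ∀ e < E.length, s(ψ (ed E e).1, ψ (ed E e).2) ∈ G.edgeSet := by
    intro e he
    rw [SimpleGraph.mem_edgeSet]
    exact hadj _ (pict_mem he)
  have hnr : ∀ e < E.length, ∀ x, x ∈ D.arc s(ψ (ed E e).1, ψ (ed E e).2) →
      (∀ v < n, x ≠ D.pt (ψ v)) → x ∉ Set.range D.pt := by
    rintro e he x hx hv ⟨w, rfl⟩
    obtain ⟨u, hu, hwu, -⟩ := pict_inc hE he (D.avoid _ (hedge e he) w hx)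
    exact hv u hu (by rw [hwu])
  refine ⟨{
    pt := fun v => D.pt (ψ v)
    arc := fun e => D.arc s(ψ (ed E e).1, ψ (ed E e).2)
    inj := fun i hi j hj hij => hψ i hi j hj (D.inj hij)
    path := fun e he => D.path _ _ (hadj _ (pict_mem he))
    avoid := ?_
    one := ?_ }⟩
  · intro e he v hv hx
    obtain ⟨u, hu, hwu, hi⟩ := pict_inc hE he (D.avoid _ (hedge e he) (ψ v) hx)
    rw [hψ v hv u hu hwu]
    exact hi
  · rintro e he f hf g hg hfe hge ⟨x, x1, x2, x3⟩ ⟨y, y1, y2, y3⟩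
    apply pict_sym hE hψ hf hg
    apply hD _ (hedge e he) _ (hedge f hf) _ (hedge g hg)
    · exact ⟨fun hh => hfe (pict_sym hE hψ hf he hh.symm), x, x1, x2, hnr e he x x1 x3⟩
    · exact ⟨fun hh => hge (pict_sym hE hψ hg he hh.symm), y, y1, y2, hnr e he y y1 y3⟩

end OPC
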